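import Pool.Agent.D0H11.GO.Stm

/-!
# Project GO (helper11), module 8: `S_PD → S_PUM`.
-/

set_option autoImplicit false

namespace Pool.Agent.D0H45.GO

open Finset MeasureTheory Filter Pool.Agent.D0H11.GO

theorem memQM {M : ℕ} {q : Fin 4 → ℕ} (h : q ∈ QM M) :
    7 * M ≤ q 0 ∧ q 0 < 8 * M ∧ 7 * M ≤ q 1 ∧ q 1 < 8 * M ∧ 4 * M ≤ q 2 ∧ q 2 < 5 * M ∧
      4 * M ≤ q 3 ∧ q 3 < 5 * M := by
  classical
  unfold QM Pool.Agent.D0H11.GM.QQ at h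
  simp only [mem_filter, Fintype.mem_piFinset, mem_Ico] at h
  obtain ⟨⟨h1, _⟩, h2, h3, h4, h5⟩ := h
  have a0 := h1 0
  have a1 := h1 1
  have a2 := h1 2
  have a3 := h1 3
  omega

theorem core (c r : ℝ) (M : ℕ) (X : ENNReal)
    (h : ∀ (A B : ℝ) (k : ℕ), (2 : ℝ) ^ M ≤ |B| → |B| * 2 ^ M ≤ A →
      volume {α : ℝ | α ∈ Set.Icc (c - r) (c + r) ∧ (⌊α * A⌋₊ + 1).Prime ∧
        (⌊α * (2 ^ k * A + B)⌋₊ + 1).Prime} ≤ X)
    (u v k v' : ℕ) (h1 : 14 * M ≤ u) (h2 : 8 * M ≤ v) (h3 : v ≤ 10 * M) (h4 : 8 * M ≤ v')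
    (h5 : v' ≤ 10 * M) (h6 : k ≤ 2 * M) (hne : v' ≠ v + k) :
    volume {α : ℝ | α ∈ Set.Icc (c - r) (c + r) ∧ (⌊α * (2 ^ u + 2 ^ v)⌋₊ + 1).Prime ∧
      (⌊α * (2 ^ (u + k) + 2 ^ v')⌋₊ + 1).Prime} ≤ X := by
  have e : (2 : ℝ) ^ (u + k) + 2 ^ v' = 2 ^ k * (2 ^ u + 2 ^ v) + (2 ^ v' - 2 ^ (v + k)) := by ring
  have p1 : (0 : ℝ) < 2 ^ v' := by positivity
  have p2 : (0 : ℝ) < 2 ^ (v + k) := by positivity
  have hB1 : (2 : ℝ) ^ (8 * M) ≤ |(2 : ℝ) ^ v' - 2 ^ (v + k)| := by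
    rcases lt_or_gt_of_ne hne with hlt | hgt
    · have g1 : (2 : ℝ) ^ (v' + 1) ≤ 2 ^ (v + k) := pow_le_pow_right₀ (by norm_num) hlt
      have g2 : (2 : ℝ) ^ (8 * M) ≤ 2 ^ v' := pow_le_pow_right₀ (by norm_num) h4
      rw [pow_succ] at g1
      rw [abs_sub_comm]
      exact le_trans (by linarith) (le_abs_self _)
    · have g1 : (2 : ℝ) ^ (v + k + 1) ≤ 2 ^ v' := pow_le_pow_right₀ (by norm_num) hgt
      have g2 : (2 : ℝ) ^ (8 * M) ≤ 2 ^ (v + k) := pow_le_pow_right₀ (by norm_num) (by omega)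
      rw [pow_succ] at g1
      exact le_trans (by linarith) (le_abs_self _)
  have hB2 : |(2 : ℝ) ^ v' - 2 ^ (v + k)| ≤ 2 ^ (12 * M) := by
    have g1 : (2 : ℝ) ^ v' ≤ 2 ^ (12 * M) := pow_le_pow_right₀ (by norm_num) (by omega)
    have g2 : (2 : ℝ) ^ (v + k) ≤ 2 ^ (12 * M) := pow_le_pow_right₀ (by norm_num) (by omega)
    rw [abs_le]
    constructor <;> linarith
  rw [e]
  apply h
  · exact le_trans (pow_le_pow_right₀ (by norm_num) (by omega)) hB1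
  · have p3 : (0 : ℝ) < 2 ^ v := by positivity
    calc |(2 : ℝ) ^ v' - 2 ^ (v + k)| * 2 ^ M ≤ 2 ^ (12 * M) * 2 ^ M :=
          mul_le_mul_of_nonneg_right hB2 (by positivity)
      _ = 2 ^ (13 * M) := by rw [← pow_add]; congr 1; ring
      _ ≤ 2 ^ u := pow_le_pow_right₀ (by norm_num) (by omega)
      _ ≤ 2 ^ u + 2 ^ v := by linarith

theorem core2 (c r : ℝ) (M : ℕ) (X : ENNReal)
    (h : ∀ (A B : ℝ) (k : ℕ), (2 : ℝ) ^ M ≤ |B| → |B| * 2 ^ M ≤ A →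
      volume {α : ℝ | α ∈ Set.Icc (c - r) (c + r) ∧ (⌊α * A⌋₊ + 1).Prime ∧
        (⌊α * (2 ^ k * A + B)⌋₊ + 1).Prime} ≤ X)
    (q q' : Fin 4 → ℕ) (hq : q ∈ QM M) (hq' : q' ∈ QM M) (hu : q 0 + q 1 ≤ q' 0 + q' 1)
    (hne : q 0 + q 1 + (q' 2 + q' 3) ≠ q' 0 + q' 1 + (q 2 + q 3)) :
    volume {α : ℝ | α ∈ Set.Icc (c - r) (c + r) ∧ PM α q ∧ PM α q'} ≤ X := by
  obtain ⟨a1, a2, a3, a4, a5, a6, a7, a8⟩ := memQM hq
  obtain ⟨b1, b2, b3, b4, b5, b6, b7, b8⟩ := memQM hq'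
  obtain ⟨k, hk⟩ := Nat.exists_eq_add_of_le hu
  have := core c r M X h (q 0 + q 1) (q 2 + q 3) k (q' 2 + q' 3) (by omega) (by omega) (by omega)
    (by omega) (by omega) (by omega) (by omega)
  rw [← hk] at this
  exact this

theorem t_PUM (hPD : S_PD) : S_PUM := by
  obtain ⟨C, hC, h⟩ := hPD
  refine ⟨C, hC, fun c r hr hrc => ?_⟩
  filter_upwards [h c r hr hrc] with M hM q hq q' hq' hne
  rcases le_total (q 0 + q 1) (q' 0 + q' 1) with hu | hu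
  · exact core2 c r M _ hM q q' hq hq' hu hne
  · have := core2 c r M _ hM q' q hq' hq hu (by omega)
    refine le_trans (le_of_eq ?_) this
    congr 1
    ext α
    simp only [Set.mem_ofPred_eq]
    tauto

end Pool.Agent.D0H45.GO
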